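import Mathlib
import Pool.Agent.Helper86.E2.DescDefs
import Pool.Agent.Helper29.E2.Kinds

/-!
# E-T (MP_12a1af_nt), phase 2: what is used about the function `kid` (one time), merged part
-/

namespace Pool.Agent.E2S

open Pool.Agent.Helper29.ETK (Kid CC lg)
open Pool.Agent.Helper29.E2 (ep Wd av wb kid)

export Pool.Agent.Helper29.E2 (KidOK KCut KidSize)

/-- what is needed of the kinds at one time -/
structure OneK (c e1 t : ℕ) : Prop where
  K : KidOK c t
  S : KidSize c t
  R : ∀ v, ∀ s < wb c t, kid c t s = .R v → KCut c t s → 0 < s ∧ Wd c s ∣ s ∧ Wd c s ∣ v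
  t : CC c ^ (2 * e1 + 4) ≤ t

end Pool.Agent.E2S
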