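import Mathlib
import Pool.Agent.E2S.Kinds
import Pool.Agent.Helper29.E2.Basic
import Pool.Agent.ETS.Red
import Pool.Agent.ETS.PhiV
import Pool.Agent.Helper3.ETF.Lists

/-!
# E-T (MP_12a1af_nt), phase 2: size and injectivity of the regions of the merged part
-/

open Finset

namespace Pool.Agent.E2S

open Pool.Agent.ETS
open Pool.Agent.Helper29.ETK (Kid CC lg)
open Pool.Agent.Helper29.E2 (ep Wd av wb kid gth)
open Pool.Agent.E2 (pidx isPT Desc IsDesc Occ ddist)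
open Pool.Agent.ETP (phiV)

variable {C : Codes} {c t : ℕ}

/-- size and distinct contents -/
def RGood (C : Codes) (r : Reg) : Prop :=
  (r.V C).card ^ 2 ≤ 2 ^ (r.len C) ∧ r.Inj C

/-- the code properties which concern one region of the merged part -/
structure RegCodes (c e1 : ℕ) (C : Codes) : Prop where
  W : ∀ e, C.W e = CC c ^ e
  P : ∀ p f b, f ≤ b → RGood C (Reg.P p f b)
  R : ∀ b v, b ≤ v → RGood C (Reg.R b v)
  RT : ∀ e b v, e1 ≤ e → b + C.W e ≤ v → C.W e ∣ v - b → RGood C (Reg.RT e b v)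
  RTh : ∀ e b v, e1 ≤ e → b + C.W e ≤ v → C.W e ∣ v - b → RGood C (Reg.RTh e b v)
  PT : ∀ g b, e1 ≤ ep c b → g ≤ b → Wd c b ∣ b → Wd c b ∣ g → (g = 0 ∨ ep c g = ep c b) →
    RGood C (Reg.PT (pidx c g) (ep c b) g b)

lemma e1_le {e1 s : ℕ} (h1 : CC c ^ (2 * e1 + 4) ≤ t) (h2 : t ≤ CC c ^ 4 * s) (hc : 1 ≤ c) :
    e1 ≤ ep c s := by
  have hC : 2 ≤ CC c := by
    unfold CC
    calc 2 = 2 ^ 1 := rfl
      _ ≤ 2 ^ c := Nat.pow_le_pow_right (by norm_num) hc
  have h3 : CC c ^ (2 * e1) ≤ s := by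
    have : CC c ^ 4 * CC c ^ (2 * e1) ≤ CC c ^ 4 * s := by
      rw [← pow_add]
      calc CC c ^ (4 + 2 * e1) = CC c ^ (2 * e1 + 4) := by ring_nf
        _ ≤ t := h1
        _ ≤ _ := h2
    exact Nat.le_of_mul_le_mul_left this (by positivity)
  have hs : s ≠ 0 := by
    have : 0 < CC c ^ (2 * e1) := by positivity
    omega
  unfold ep lg
  have h4 : 2 * e1 ≤ Nat.log (CC c) s := Nat.le_log_of_pow_le (by omega) h3
  omega

/-- the epoch of the first unit of a zone is at least `e1` -/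
lemma OneK.e1_le {e1 s : ℕ} (H : OneK c e1 t) (hc : 1 ≤ c) (h2 : t ≤ CC c ^ 4 * s) :
    e1 ≤ ep c s := E2S.e1_le H.t h2 hc

/-- the bound wanted for one far pair of pairs of consecutive regions -/
def FarOK (C : Codes) (c K K' : ℕ) (r0 r1 r0' r1' : Reg) : Prop :=
  ∃ B : ℕ, (∀ n Z Z', ZoneOf C r0 r1 Z → ZoneOf C r0' r1' Z' → (zcons K K' n Z Z').card ≤ B) ∧
    (B : ℝ) * phiV K K' (r1.top C) (r1'.top C) ≤ (1/2) ^ (gth c K / (8 * CC c))

end Pool.Agent.E2S
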