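import Mathlib
import Pool.Agent.E2S.Glue2
import Pool.Agent.Helper83.ET.AllCodes
import Pool.Agent.Helper86.ET.Q11
import Pool.Agent.Helper41.ETPN

/-!
# E-T (MP_12a1af_nt), phase 2: the code properties for the far pairs
-/

open Finset

namespace Pool.Agent.E2S

open Pool.Agent.ETS
open Pool.Agent.Helper29.ETK (CC Gq kk lg)
open Pool.Agent.Helper29.E2 (kid wb ep Wd gth epo Wd_pos)
open Pool.Agent.E2 (pidx isPT Desc IsDesc Occ ddist)
open Pool.Agent.Helper83.ET Pool.Agent.Helper41.ETPP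

variable {c : ℕ}

lemma CC_pos (c : ℕ) : 0 < CC c := by unfold CC; positivity

lemma CC_ge (hc : 20 ≤ c) : 2 ^ 20 ≤ CC c := Nat.pow_le_pow_right (by norm_num) hc

lemma two_dvd_CC (hc : 20 ≤ c) : 2 ∣ CC c := dvd_pow_self 2 (by omega)

lemma two_pow_kk_le (E : ℕ) : 2 ^ kk E ≤ 16 * (3 * E + 10) := by
  unfold kk
  have h := Nat.pow_pred_clog_lt_self (b := 2) one_lt_two (x := 8 * (3 * E + 10)) (by omega)
  have h2 : 0 < Nat.clog 2 (8 * (3 * E + 10)) := Nat.clog_pos one_lt_two (by omega)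
  obtain ⟨k, hk⟩ : ∃ k, Nat.clog 2 (8 * (3 * E + 10)) = k + 1 :=
    ⟨Nat.clog 2 (8 * (3 * E + 10)) - 1, by omega⟩
  rw [hk] at h ⊢
  simp only [Nat.pred_eq_sub_one, Nat.add_sub_cancel] at h
  rw [pow_succ]
  omega

lemma one_le_BT (e : ℕ) : 1 ≤ BT (CC c) e := by
  unfold BT
  have := CC_pos c
  have : 0 < CC c ^ (e + 1) := by positivity
  omega

/-- **the properties of the codes (merged part)** which are needed for the far pairs and for single
regions -/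
structure CodeFacts (c : ℕ) (D : Codes) : Prop where
  W : ∀ e, D.W e = CC c ^ e
  X : ∀ p l, D.X p l = (pcode (CC c) p).X l
  P : ∀ p l x, D.P p l x = (pcode (CC c) p).P l x
  T : ∀ e, 40 ≤ e → (D.T e).card ^ 2 ≤ 2 ^ D.W e
  R : ∀ e, 40 ≤ e → ∃ r, RC.RHyp D e (BTh (CC c) e) r
  PT : ∀ a b, 40 ≤ ep c b → a ≤ b → Wd c b ∣ b → Wd c b ∣ a → (a = 0 ∨ ep c a = ep c b) →
    PTok D (pcode (CC c) (pidx c a)) (BT (CC c) (ep c b)) (ep c b) (b - a)

/-- **the codes satisfy the hypotheses on single regions** -/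
theorem CodeFacts.reg {D : Codes} (H : CodeFacts c D) : RegCodes c 40 D where
  W := H.W
  P := fun p f b hfb => by
    have hr : IsPr D (pcode (CC c) p) 1 p f (Reg.P p f b) := ⟨rfl, rfl, hfb⟩
    exact ⟨hr.card_sq (H.X p) (H.P p), hr.inj (H.X p) (H.P p)⟩
  R := fun b v _ => by
    obtain ⟨r, h⟩ := H.R 40 le_rfl
    exact RC.good_R h.toRBase b v
  RT := fun e b v he hv _ => by
    obtain ⟨r, h⟩ := H.R e he
    exact RC.good_RT h.toRBase hv
  RTh := fun e b v he hv _ => by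
    obtain ⟨r, h⟩ := H.R e he
    exact RC.good_RTh h.toRBase hv
  PT := fun g b he hgb hb hg hep => by
    have hr : IsPr D (pcode (CC c) (pidx c g)) (BT (CC c) (ep c b)) (pidx c g) g
        (Reg.PT (pidx c g) (ep c b) g b) := ⟨rfl, rfl, hgb, H.PT g b he hgb hb hg hep⟩
    exact ⟨hr.card_sq (H.X _) (H.P _), hr.inj (H.X _) (H.P _)⟩

lemma aux_mono {C e e' : ℕ} (hC : 2 ≤ C) (h5 : 5 ≤ e) (h : e ≤ e') :
    C ^ (e - 5) / (e + 1) ≤ C ^ (e' - 5) / (e' + 1) := by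
  obtain ⟨d, rfl⟩ := Nat.exists_eq_add_of_le h
  rw [Nat.le_div_iff_mul_le (by omega)]
  have h1 : C ^ (e - 5) / (e + 1) * (e + 1) ≤ C ^ (e - 5) := Nat.div_mul_le_self _ _
  have h2 : e + d + 1 ≤ (e + 1) * C ^ d := by
    have h3 : d + 1 ≤ C ^ d :=
      (Nat.lt_two_pow_self (n := d)).trans_le (Nat.pow_le_pow_left hC d)
    calc e + d + 1 ≤ (e + 1) * (d + 1) := by nlinarith
      _ ≤ _ := Nat.mul_le_mul_left _ h3
  have h4 : C ^ (e + d - 5) = C ^ (e - 5) * C ^ d := by rw [← pow_add]; congr 1; omega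
  calc C ^ (e - 5) / (e + 1) * (e + d + 1)
      ≤ C ^ (e - 5) / (e + 1) * ((e + 1) * C ^ d) := Nat.mul_le_mul_left _ h2
    _ = C ^ (e - 5) / (e + 1) * (e + 1) * C ^ d := by ring
    _ ≤ C ^ (e - 5) * C ^ d := Nat.mul_le_mul_right _ h1
    _ = _ := h4.symm

lemma aux_add {u w z : ℕ} (h1 : 36 * u ≤ z) (h2 : w * 2 ≤ z) : 18 * u + w ≤ z := by omega

lemma gth_big {c K : ℕ} (hc : 20 ≤ c) (hE : 10 ≤ epo c K) {A : ℕ}
    (hA : A * (epo c K + 2) ≤ CC c ^ (epo c K - 4)) : (18 + A) * (4 * CC c) ≤ gth c K := by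
  have hC20 : 2 ^ 20 ≤ CC c := CC_ge hc
  unfold gth Gq
  obtain ⟨E, hEq⟩ : ∃ E, E = epo c K := ⟨_, rfl⟩
  rw [← hEq] at hE hA ⊢
  obtain ⟨k, hk⟩ : ∃ k, k = kk (E - 1) := ⟨_, rfl⟩
  have hk2 : 2 ^ k ≤ 16 * (3 * (E - 1) + 10) := by
    rw [hk]; exact two_pow_kk_le _
  rw [← hk]
  have hE1 : E < 2 ^ E := Nat.lt_two_pow_self
  have hpow : CC c ^ (E - 2) = 2 ^ (c * (E - 2)) := by unfold CC; rw [← pow_mul]
  have hCE : ∀ n, 2 ^ (20 * n) ≤ CC c ^ n := by
    intro n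
    rw [pow_mul]
    exact Nat.pow_le_pow_left hC20 n
  have h36 : 36 * (2 ^ 16 * (3 * E + 7)) ≤ CC c ^ (E - 3) := by
    have h1 : 3 * E + 7 ≤ 2 ^ 4 * 2 ^ E := by
      have : (2:ℕ) ^ 4 = 16 := by norm_num
      rw [this]
      omega
    calc 36 * (2 ^ 16 * (3 * E + 7)) ≤ 2 ^ 6 * (2 ^ 16 * (2 ^ 4 * 2 ^ E)) := by
          apply Nat.mul_le_mul (by norm_num)
          exact Nat.mul_le_mul_left _ h1
      _ = 2 ^ (26 + E) := by rw [pow_add]; ring
      _ ≤ 2 ^ (20 * (E - 3)) := Nat.pow_le_pow_right (by norm_num) (by omega)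
      _ ≤ _ := hCE _
  have h1E : 3 * (E - 1) + 10 = 3 * E + 7 := by omega
  rw [h1E] at hk2
  have hkk : 2 ^ (10 + k) ≤ 2 ^ 14 * (3 * E + 7) := by
    rw [pow_add]
    calc 2 ^ 10 * 2 ^ k ≤ 2 ^ 10 * (16 * (3 * E + 7)) := Nat.mul_le_mul_left _ hk2
      _ = _ := by ring
  have hCC3 : CC c ^ (E - 2) = CC c ^ (E - 3) * CC c := by
    rw [← pow_succ]; congr 1; omega
  have hCC4 : CC c ^ (E - 3) = CC c ^ (E - 4) * CC c := by
    rw [← pow_succ]; congr 1; omega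
  have hle : 10 + k ≤ c * (E - 2) := by
    have h2 : 2 ^ (10 + k) ≤ 2 ^ (c * (E - 2)) := by
      rw [← hpow]
      refine hkk.trans ?_
      calc 2 ^ 14 * (3 * E + 7) ≤ (36 * 2 ^ 16) * (3 * E + 7) :=
            Nat.mul_le_mul_right _ (by norm_num)
        _ = 36 * (2 ^ 16 * (3 * E + 7)) := by ring
        _ ≤ CC c ^ (E - 3) := h36
        _ ≤ CC c ^ (E - 2) := Nat.pow_le_pow_right (CC_pos c) (by omega)
    exact (Nat.pow_le_pow_iff_right (by norm_num)).mp h2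
  have hg : 2 ^ (c * (E - 1 - 1) - 10 - k) * 2 ^ (10 + k) = CC c ^ (E - 2) := by
    rw [hpow, ← pow_add]
    congr 1
    have : E - 1 - 1 = E - 2 := by omega
    rw [this]
    omega
  have h3 : (18 + A) * (4 * CC c) * 2 ^ (10 + k) ≤
      2 ^ (c * (E - 1 - 1) - 10 - k) * 2 ^ (10 + k) := by
    rw [hg]
    have hA4 : A * (3 * E + 7) ≤ 4 * CC c ^ (E - 4) := by
      calc A * (3 * E + 7) ≤ A * (4 * (E + 2)) := Nat.mul_le_mul_left _ (by omega)
        _ = 4 * (A * (E + 2)) := by ring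
        _ ≤ _ := Nat.mul_le_mul_left _ hA
    have e1 : (18 + A) * (4 * CC c) * 2 ^ (10 + k) ≤
        (18 + A) * (4 * CC c) * (2 ^ 14 * (3 * E + 7)) := Nat.mul_le_mul_left _ hkk
    have e2 : (18 + A) * (4 * CC c) * (2 ^ 14 * (3 * E + 7)) =
        18 * (2 ^ 16 * (3 * E + 7)) * CC c + 2 ^ 16 * (A * (3 * E + 7)) * CC c := by ring
    have e3 : 2 ^ 16 * (A * (3 * E + 7)) * 2 ≤ CC c ^ (E - 3) := by
      calc 2 ^ 16 * (A * (3 * E + 7)) * 2 ≤ 2 ^ 16 * (4 * CC c ^ (E - 4)) * 2 :=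
            Nat.mul_le_mul_right _ (Nat.mul_le_mul_left _ hA4)
        _ = CC c ^ (E - 4) * 2 ^ 19 := by ring
        _ ≤ CC c ^ (E - 4) * CC c := Nat.mul_le_mul_left _ (le_trans (by norm_num) hC20)
        _ = _ := hCC4.symm
    rw [e2] at e1
    refine e1.trans ?_
    rw [hCC3, ← add_mul]
    apply Nat.mul_le_mul_right
    exact aux_add h36 e3
  exact Nat.le_of_mul_le_mul_right h3 (by positivity)

lemma ep_le_epo (c K : ℕ) : ep c K ≤ epo c K + 1 := by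
  unfold ep epo
  omega

lemma num_BTh {c K e : ℕ} (hc : 20 ≤ c) (hE : 20 ≤ epo c K) (he : 20 ≤ e) (h : e ≤ ep c K) :
    153738 * BTh (CC c) e ≤ 2 ^ (gth c K / (4 * CC c)) := by
  have hCp := CC_pos c
  have h2 : 2 ≤ CC c := le_trans (by norm_num) (CC_ge hc)
  have h1 : (18 + CC c ^ (e - 5) / (e + 1)) * (4 * CC c) ≤ gth c K := by
    apply gth_big hc (by omega)
    have h3 := aux_mono (C := CC c) (e := e) (e' := epo c K + 1) h2 (by omega)
      (h.trans (ep_le_epo c K))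
    calc CC c ^ (e - 5) / (e + 1) * (epo c K + 2)
        ≤ CC c ^ (epo c K + 1 - 5) / (epo c K + 1 + 1) * (epo c K + 1 + 1) :=
          Nat.mul_le_mul h3 (by omega)
      _ ≤ CC c ^ (epo c K + 1 - 5) := Nat.div_mul_le_self _ _
      _ = _ := by congr 1
  have h4 : 18 + CC c ^ (e - 5) / (e + 1) ≤ gth c K / (4 * CC c) := by
    rw [Nat.le_div_iff_mul_le (by omega)]
    exact h1
  unfold BTh
  calc 153738 * 2 ^ (CC c ^ (e - 5) / (e + 1)) ≤ 2 ^ 18 * 2 ^ (CC c ^ (e - 5) / (e + 1)) :=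
        Nat.mul_le_mul_right _ (by norm_num)
    _ = 2 ^ (18 + CC c ^ (e - 5) / (e + 1)) := by rw [pow_add]
    _ ≤ _ := Nat.pow_le_pow_right (by norm_num) h4

lemma F3.mono {W B B' : ℕ} {T : Finset ℕ} (h : F3 W T B) (hB : B ≤ B') : F3 W T B' :=
  fun ν s hs => (h ν s hs).trans hB

lemma PTok.mono {C : Codes} {cd : Code} {B B' e L : ℕ} (h : PTok C cd B e L) (hB : B ≤ B') :
    PTok C cd B' e L where
  four_le := h.four_le
  even := h.even
  lt := h.lt
  card := h.card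
  f3 := F3.mono h.f3 hB
  f4 := fun hL ν => (h.f4 hL ν).trans hB
  sum := fun s => (h.sum s).trans hB
  pos := h.pos

/-- **the final codes satisfy the hypotheses of the far bounds** -/
theorem farCodes_of {D : Codes} (H : CodeFacts c D) {K : ℕ} (hc : 20 ≤ c) (hE : 40 ≤ epo c K) :
    FarCodes c 40 D (gth c K) (ep c K) where
  reg := H.reg
  T := H.T
  rr := by
    intro e he h
    obtain ⟨r, hr⟩ := H.R e he
    exact ⟨_, r, hr, num_BTh hc (by omega) (by omega) h⟩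
  pp := by
    intro p
    have hep : 20 ≤ ep c K := by
      have : epo c K ≤ ep c K := by unfold ep epo; omega
      omega
    refine ⟨pcode (CC c) p, H.X p, H.P p, BT (CC c) (ep c K), one_le_BT _, ?_, ?_⟩
    · have h1 := num_BTh hc (by omega) hep le_rfl
      have h2 := BT_le_BTh (CC_ge hc) hep
      have hCp := CC_pos c
      calc 4 * BT (CC c) (ep c K) ≤ 153738 * BTh (CC c) (ep c K) :=
            Nat.mul_le_mul (by norm_num) h2
        _ ≤ 2 ^ (gth c K / (4 * CC c)) := h1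
        _ ≤ 2 ^ (gth c K / 4) :=
            Nat.pow_le_pow_right (by norm_num) (Nat.div_le_div_left (by omega) (by norm_num))
    · rintro a b rfl h1 h2 h3 h4 h5 h6
      refine PTok.mono (H.PT a b h1 h3 h4 h5 h6) ?_
      unfold BT
      exact Nat.mul_le_mul_left _ (Nat.pow_le_pow_right (CC_pos c) (by omega))

lemma farNum_mk {K K' : ℕ} (hc : 20 ≤ c) (hE : 20 ≤ epo c K) (hg : K' + gth c K ≤ K) :
    FarNum c K K' where
  c5 := le_trans (by norm_num) (CC_ge hc)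
  g := hg
  g16 := by
    have := gth_big (c := c) (K := K) hc (by omega) (A := 0) (by rw [zero_mul]; exact Nat.zero_le _)
    omega

end Pool.Agent.E2S
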