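import Mathlib
import Pool.Agent.Helper86.ET.Q11
import Pool.Agent.E2S.FarKin
import Pool.Agent.E2S.Fields
import Pool.Agent.Helper5.ETP.ZBasic

/-!
# E-T (MP_12a1af_nt), phase 2: far pairs, an `R` zone of `K` which reaches above `K'`
-/

set_option autoImplicit false

open Finset

namespace Pool.Agent.E2S.RC

open Pool.Agent.ETS.RC
open Pool.Agent.ETS
open Pool.Agent.Helper29.ETK (Kid CC lg)
open Pool.Agent.Helper29.E2 (kid wb ep Wd av ab ag ak gth Wd_pos)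
open Pool.Agent.E2 (pidx isPT Desc IsDesc Occ ddist)
open Pool.Agent.ETP (phiV)
open Pool.Agent.Helper5.ETP (Zone.Ok zcons_le_left zreg_card_le zRS_card_le)

lemma zoneOf_top {C : Codes} {r0 r1 : Reg} {Z : Zone} (h : ZoneOf C r0 r1 Z) :
    Z.top = r1.top C := by
  cases r0 <;> simp only [ZoneOf] at h
  case PT =>
    obtain ⟨a, κ, κ₂, -, rfl⟩ := h
    rfl
  all_goals
    obtain ⟨a, κ, -, rfl⟩ := h
    rfl

lemma zoneOf_reg {C : Codes} {r0 r1 : Reg} {Z : Zone} (h : ZoneOf C r0 r1 Z) (h0 : ¬ isPT r0) :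
    ∃ a κ, a < 2 ^ r1.bot ∧ Z = zreg C r1 a κ := by
  cases r0 <;> simp only [ZoneOf] at h
  case PT => exact absurd trivial h0
  all_goals exact h

/-- the top of the last region of a description of `R` type -/
lemma desc_top {C : Codes} {c t : ℕ} {d : Desc} {r0 r1 : Reg} (hd : IsDesc c t d r0 r1)
    (hR : d.IsR) : r1.top C = d.hi c := by
  cases d with
  | P g e => exact hR.elim
  | PT g b => exact hR.elim
  | RS g b v => obtain ⟨-, h, -⟩ := hd; rw [h]; rfl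
  | R b v => obtain ⟨h, -⟩ := hd; rw [h]; rfl
  | RT b v => obtain ⟨h, -⟩ := hd; rw [h]; rfl
  | RTh b v => obtain ⟨h, -⟩ := hd; rw [h]; rfl

lemma half_of_sq {a n : ℕ} (h : a ^ 2 ≤ 2 ^ n) : a ≤ 2 ^ (n / 2) ∨ n % 2 = 1 := by
  rcases Nat.mod_two_eq_zero_or_one n with h0 | h1
  · left
    have e : n = n / 2 * 2 := by omega
    rw [e, pow_mul] at h
    exact (Nat.pow_le_pow_iff_left (by norm_num)).mp h
  · exact Or.inr h1

/-- size of the zones of `R` type -/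
lemma card_zone_R {C : Codes} {c t : ℕ} {d : Desc} {r0 r1 : Reg} {Z : Zone}
    (hC : RBase C (ep c d.lo)) (hW : C.W (ep c d.lo) = Wd c d.lo)
    (hd : IsDesc c t d r0 r1) (hR : d.IsR) (hlen : d.Ip c ≤ d.hi c) (hZ : ZoneOf C r0 r1 Z) :
    Z.S.card ≤ 2 ^ ((d.hi c - d.lo) / 2) := by
  have hblock : ∀ {l : ℕ} {T : Finset ℕ}, C.W (ep c d.lo) ≤ l →
      T.card ≤ 2 ^ (C.W (ep c d.lo) / 2) →
      (C.Y (l - C.W (ep c d.lo))).card * T.card ≤ 2 ^ (l / 2) := by
    intro l T hl hT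
    rw [hC.hY]
    have h2 := hC.hW
    calc (Yq ((l - C.W (ep c d.lo)) / 2)).card * T.card
        ≤ 2 ^ ((l - C.W (ep c d.lo)) / 2) * 2 ^ (C.W (ep c d.lo) / 2) :=
          Nat.mul_le_mul (card_Yq_le _) hT
      _ = 2 ^ ((l - C.W (ep c d.lo)) / 2 + C.W (ep c d.lo) / 2) := by rw [pow_add]
      _ ≤ 2 ^ (l / 2) := Nat.pow_le_pow_right (by norm_num) (by omega)
  cases d with
  | P g e => exact hR.elim
  | PT g b => exact hR.elim
  | RS g b v =>
    obtain ⟨h0, h1, -⟩ := hd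
    simp only [Desc.lo, Desc.hi, Desc.Ip] at *
    subst h0 h1
    obtain ⟨a, κ, κ₂, -, rfl⟩ := hZ
    refine (zRS_card_le C _ _ _ _ _ _).trans ?_
    simp only [Reg.top]
    rw [Nat.sub_add_eq]
    exact hblock (by omega) hC.cT
  | R b v =>
    obtain ⟨h1, h0, -⟩ := hd
    simp only [Desc.lo, Desc.hi, Desc.Ip] at *
    subst h1
    obtain ⟨a, κ, -, rfl⟩ := zoneOf_reg hZ h0
    refine (zreg_card_le C _ _ _).trans ?_
    simp only [Reg.V]
    rw [hC.hY]
    exact card_Yq_le _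
  | RT b v =>
    obtain ⟨h1, h0, -⟩ := hd
    simp only [Desc.lo, Desc.hi, Desc.Ip] at *
    subst h1
    obtain ⟨a, κ, -, rfl⟩ := zoneOf_reg hZ h0
    refine (zreg_card_le C _ _ _).trans ?_
    simp only [Reg.V, card_pairs]
    exact hblock (by omega) hC.cT
  | RTh b v =>
    obtain ⟨h1, h0, -⟩ := hd
    simp only [Desc.lo, Desc.hi, Desc.Ip] at *
    subst h1
    obtain ⟨a, κ, -, rfl⟩ := zoneOf_reg hZ h0
    refine (zreg_card_le C _ _ _).trans ?_
    simp only [Reg.V, card_pairs]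
    exact hblock (by omega) hC.cTh

lemma cutR_num {g x z q : ℝ} (hq : 1 ≤ q) (hg : 0 ≤ g) (hz : 2 * g ≤ z)
    (h : (q + 1) * x ≤ q * z) : g / (8 * q) ≤ (z - x) / 2 := by
  have h9 : z ≤ (z - x) * (q + 1) := by
    have e : (z - x) * (q + 1) = (q + 1) * z - (q + 1) * x := by ring
    rw [e]
    linarith
  have h10 : 0 ≤ z - x := nonneg_of_mul_nonneg_left (by linarith) (by linarith : 0 < q + 1)
  rw [div_le_iff₀ (by linarith)]
  have h11 : (z - x) * (q + 1) ≤ (z - x) * (2 * q) :=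
    mul_le_mul_of_nonneg_left (by linarith) h10
  have e : (z - x) / 2 * (8 * q) = 2 * ((z - x) * (2 * q)) := by ring
  rw [e]
  linarith

/-- **(CUT-R)** the `R` zone of `K` reaches above `K'` -/
theorem cutR {C : Codes} {c K K' : ℕ} (hF : FarKin c K K') {d : Desc} {r0 r1 r0' r1' : Reg}
    (hC : RBase C (ep c d.lo)) (hW : C.W (ep c d.lo) = Wd c d.lo)
    (hd : IsDesc c K d r0 r1) (hR : d.IsR) (hlen : d.Ip c ≤ d.hi c) (hvK : d.hi c ≤ K)
    (hcut : K' ≤ d.hi c) (htop' : r1'.top C ≤ K')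
    (hok' : ∀ Z', ZoneOf C r0' r1' Z' → Zone.Ok Z') :
    FarOK C c K K' r0 r1 r0' r1' := by
  have htop := desc_top (C := C) hd hR
  refine ⟨1 * 2 ^ ((d.hi c - d.lo) / 2), ?_, ?_⟩
  · intro n Z Z' hZ hZ'
    have h1 := zoneOf_top hZ
    have h2 := zoneOf_top hZ'
    rw [one_mul]
    refine (zcons_le_left (hok' Z' hZ') (by rw [h1, htop]; exact hvK) (by rw [h2]; exact htop')
      (by rw [h1, h2, htop]; omega)).trans ?_
    exact card_zone_R hC hW hd hR hlen hZ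
  · obtain ⟨h5, -⟩ := hF.F5R d ⟨r0, r1, hd⟩ hR
    have h8 := hF.F8 d ⟨r0, r1, hd⟩
    rw [htop]
    have hC1 : 1 ≤ CC c := Nat.one_le_two_pow
    refine fin_le' (p := 0) (by norm_num) (phiV_eq_of_cut hcut hvK htop') ?_
    have h1 : ((gth c K / (8 * CC c) : ℕ) : ℝ) ≤ (gth c K : ℝ) / (8 * CC c) := by
      have := natdiv_le (gth c K) (8 * CC c); push_cast at this; exact this
    have h2 : (((d.hi c - d.lo) / 2 : ℕ) : ℝ) ≤ ((d.hi c - d.lo : ℕ) : ℝ) / 2 := by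
      have := natdiv_le (d.hi c - d.lo) 2; push_cast at this; exact this
    have h3 : ((CC c : ℝ) + 1) * ((d.hi c - d.lo : ℕ) : ℝ) ≤ CC c * ((K : ℝ) - d.hi c) := by
      have : (((CC c + 1) * (d.hi c - d.lo) : ℕ) : ℝ) ≤ ((CC c * (K - d.hi c) : ℕ) : ℝ) := by
        exact_mod_cast h5
      rw [Nat.cast_mul, Nat.cast_mul, Nat.cast_sub hvK] at this
      push_cast at this
      exact this
    have h4 : (d.hi c : ℝ) + 2 * gth c K ≤ K := by exact_mod_cast h8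
    have h6 : (r1'.top C : ℝ) ≤ K' := by exact_mod_cast htop'
    have hCr : (1:ℝ) ≤ CC c := by exact_mod_cast hC1
    set x : ℝ := ((d.hi c - d.lo : ℕ) : ℝ) with hx
    set z : ℝ := (K : ℝ) - d.hi c with hz
    set g : ℝ := (gth c K : ℝ) with hg
    have hg0 : 0 ≤ g := Nat.cast_nonneg _
    have hz2 : 2 * g ≤ z := by rw [hz]; linarith
    have h7 : g / (8 * CC c) ≤ (z - x) / 2 := cutR_num hCr hg0 hz2 h3
    push_cast
    linarith

end Pool.Agent.E2S.RC
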