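import Mathlib
import Pool.Agent.E2S.Glue3
import Pool.Agent.E2S.FarMk
import Pool.Agent.Helper5.ETP.Low

/-!
# E-T (MP_12a1af_nt), phase 2: the far pairs of the merged parts, assembly; a `P` zone of `K`
above `K'`
-/

open Finset

namespace Pool.Agent.E2S

open Pool.Agent.ETS
open Pool.Agent.Helper29.ETK (Kid CC lg kk Gq)
open Pool.Agent.Helper29.E2 (kid wb ep Wd av ab ag ak gth epo Wd_pos)
open Pool.Agent.E2 (pidx isPT Desc IsDesc Occ ddist)
open Pool.Agent.ETP (phiV)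
open Pool.Agent.Helper83.ET

variable {c : ℕ}

lemma epo_mono {s t : ℕ} (h : s ≤ t) : epo c s ≤ epo c t := by
  unfold epo lg
  exact Nat.div_le_div_right (Nat.sub_le_sub_right (Nat.log_mono_right h) 1)

lemma epo_pow {n : ℕ} (hc : 1 ≤ c) : epo c (CC c ^ n) = (n - 1) / 2 := by
  unfold epo lg
  rw [Nat.log_pow]
  unfold CC
  calc 1 < 2 := by norm_num
    _ = 2 ^ 1 := rfl
    _ ≤ 2 ^ c := Nat.pow_le_pow_right (by norm_num) hc

/-- the hypotheses of the cases of the far pairs -/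
structure CaseHyp (c : ℕ) (D : Codes) (K K' : ℕ) : Prop where
  c20 : 20 ≤ c
  K1 : CC c ^ 100 ≤ K'
  g : K' + gth c K ≤ K
  O : OneK c 40 K
  O' : OneK c 40 K'
  F : FarKin c K K'
  D : CodeFacts c D

lemma CaseHyp.epo' {D : Codes} {K K' : ℕ} (H : CaseHyp c D K K') : 49 ≤ epo c K' := by
  have := epo_mono (c := c) H.K1
  rw [epo_pow (by have := H.c20; omega)] at this
  omega

lemma CaseHyp.epo {D : Codes} {K K' : ℕ} (H : CaseHyp c D K K') : 49 ≤ epo c K :=
  H.epo'.trans (epo_mono (by have := H.g; omega))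

theorem hABO {D : Codes} {K K' : ℕ} (hyp : CaseHyp c D K K') (d : Desc) (r0 r1 r0' r1' : Reg)
    (hd : IsDesc c K d r0 r1) (h' : HasDesc c K' r0' r1') (hlo : K' ≤ d.lo) :
    FarOK D c K K' r0 r1 r0' r1' := by
  have hc : 1 ≤ c := by have := hyp.c20; omega
  have hR := hyp.D.reg
  have hT := hyp.D.T
  have t1 := top_desc hR hd
  have l1 := desc_le hd
  have hwK := hyp.O.K.wbt
  have hwK' := hyp.O'.K.wbt
  have f8 := hyp.F.F8 d ⟨r0, r1, hd⟩
  have z1 : ∀ Z, ZoneOf D r0 r1 Z → ZFacts Z d.lo (d.hi c) := fun Z hZ =>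
    zfacts_desc hR hT hc hyp.O hd hZ
  have hsec : r1'.top D ≤ K' ∧ ∀ Z, ZoneOf D r0' r1' Z →
      Pool.Agent.Helper5.ETP.Zone.Ok Z ∧ Z.top = r1'.top D := by
    obtain ⟨d', hd'⟩ := h'
    have t2 := top_desc hR hd'
    have l2 := desc_le hd'
    refine ⟨by rw [t2]; omega, fun Z hZ => ?_⟩
    have f := zfacts_desc hR hT hc hyp.O' hd' hZ
    exact ⟨f.ok, by rw [f.top, t2]⟩
  refine ⟨2, ?_, ?_⟩
  · intro n Z Z' h h''
    have f := z1 Z h
    obtain ⟨f1, f2⟩ := hsec.2 Z' h''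
    obtain ⟨r, hr⟩ := f.low
    exact Pool.Agent.Helper5.ETP.above f.ok f1 hr (by rw [f.top]; exact f.le)
      (by rw [f.top]; omega) (by rw [f2]; exact hsec.1) hlo
  · rw [t1]
    refine fin_le (x := 1) (by norm_num) (phiV_eq_of_cut (by omega) (by omega) hsec.1) ?_
    have h1 : ((gth c K / (8 * CC c) : ℕ) : ℝ) ≤ (gth c K : ℝ) / 8 := by
      have h2 : gth c K / (8 * CC c) ≤ gth c K / 8 :=
        Nat.div_le_div_left (by have := CC_pos c; omega) (by norm_num)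
      calc ((gth c K / (8 * CC c) : ℕ) : ℝ) ≤ ((gth c K / 8 : ℕ) : ℝ) := by exact_mod_cast h2
        _ ≤ (gth c K : ℝ) / 8 := by exact_mod_cast natdiv_le (gth c K) 8
    have h3 : ((d.hi c : ℕ) : ℝ) + 2 * gth c K ≤ K := by exact_mod_cast f8
    have h4 : ((r1'.top D : ℕ) : ℝ) ≤ K' := by exact_mod_cast hsec.1
    have h5 : (16 : ℝ) ≤ gth c K := by
      have h6 := (farNum_mk hyp.c20 (by have := hyp.epo; omega) hyp.g).g16
      have h7 := CC_pos c
      have : 16 ≤ gth c K := by omega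
      exact_mod_cast this
    linarith

/-- the four cases which are ported by their owners -/
structure FarCases4 (c : ℕ) (D : Codes) (K K' : ℕ) : Prop where
  /-- `P` zone at `K`, `R` zone above it at `K'` with a larger top -/
  X1 : ∀ d d' r0 r1 r0' r1', IsDesc c K d r0 r1 → IsDesc c K' d' r0' r1' → d.IsP → d'.IsR →
    d.lo ≤ d'.lo → d.hi c ≤ d'.hi c → FarOK D c K K' r0 r1 r0' r1'
  /-- `R` zone at `K`, `P` zone at `K'` -/
  X2 : ∀ d d' r0 r1 r0' r1', IsDesc c K d r0 r1 → IsDesc c K' d' r0' r1' → d.IsR → d'.IsP →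
    d.hi c ≤ K' → d'.hi c ≤ d.hi c → FarOK D c K K' r0 r1 r0' r1'
  /-- `P` zone at `K`, zone above its bottom and below its top at `K'` -/
  LOW : ∀ d d' r0 r1 r0' r1', IsDesc c K d r0 r1 → IsDesc c K' d' r0' r1' → d.IsP →
    d.hi c ≤ K' → d.lo ≤ d'.lo → (d'.IsP → d.lo < d'.lo) → d'.hi c < d.hi c →
    FarOK D c K K' r0 r1 r0' r1'
  CUTP : ∀ d r0 r1 r0' r1', IsDesc c K d r0 r1 → HasDesc c K' r0' r1' → d.IsP → d.lo < K' →
    K' < d.hi c → FarOK D c K K' r0 r1 r0' r1'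

/-- **All far pairs of regions of the merged parts.** -/
theorem far_old {D : Codes} {K K' : ℕ} (hyp : CaseHyp c D K K') (hX : FarCases4 c D K K')
    {r0 r1 r0' r1' : Reg} (h : HasDesc c K r0 r1) (h' : HasDesc c K' r0' r1') :
    FarOK D c K K' r0 r1 r0' r1' := by
  have hepo : 40 ≤ epo c K := by have := hyp.epo; omega
  exact far_tree (farNum_mk hyp.c20 (by omega) hyp.g) (farCodes_of hyp.D hyp.c20 hepo)
    (by have := hyp.c20; omega) hyp.O hyp.O' le_rfl hyp.F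
    { X1 := hX.X1
      X2 := hX.X2
      LOW := hX.LOW
      CUTP := hX.CUTP
      ABOVE := fun d r0 r1 r0' r1' hd h' _ hlo => hABO hyp d r0 r1 r0' r1' hd h' hlo } h h'

end Pool.Agent.E2S
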