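import Mathlib
import Pool.Agent.Helper84.E2.TopDefs
import Pool.Agent.Helper83.E2.Mk2
import Pool.Agent.Helper16.E2.Fam
import Pool.Agent.Helper29.E2.Top
import Pool.Agent.Helper86.E2.Grid
import Pool.Agent.E2S.FarMk

/-!
# E-T (MP_12a1af_nt), phase 2: the instance of `Geo`
-/

set_option autoImplicit false

open Finset

namespace Pool.Agent.E2S

open Pool.Agent.E2 (Geo SdOk TS tsL layL LF famL famR famB fam0)
open Pool.Agent.Helper29.ETK (CC lg kk Gq)
open Pool.Agent.Helper29.E2 (ep epo gth Ld zb wn sb wb om ll hh Big TopOK)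
open Pool.Agent.Helper83.ET Pool.Agent.Helper83.E2
open Pool.Agent.ETS.RC (Mult)

variable {c : ℕ} {Sd : ℕ → Finset ℕ}

/-- the lists of one scale -/
noncomputable def lf1 (c : ℕ) (Sd : ℕ → Finset ℕ) : TS → Finset (Finset ℕ)
  | .none => ∅
  | .W e => (Fam2 c Sd e).image (fun q => (loc2 c Sd e).1 ∩ q)
  | .H e => (Fam1 c Sd e).image (fun q => (loc1 c Sd e).1 ∩ q)

/-- the lists of two scales in T-states -/
noncomputable def lf2 (c : ℕ) (Sd : ℕ → Finset ℕ) : TS → TS → Finset (Finset (ℕ × ℕ))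
  | .W e, .W _ => (range (2 ^ (CC c ^ e))).image (fun ν =>
      ((loc2 c Sd e).1 ×ˢ (loc2 c Sd e).1).filter (fun p => p.1 + p.2 ≡ ν [MOD 2 ^ (CC c ^ e)]))
  | .H e, .H _ => (range (2 ^ hh c e)).image (fun ν =>
      ((loc1 c Sd e).1 ×ˢ (loc1 c Sd e).1).filter (fun p => p.1 + p.2 ≡ ν [MOD 2 ^ hh c e]))
  | _, _ => ∅

/-- **the geometry of the schedule** -/
noncomputable def geo (c K1 : ℕ) (Sd : ℕ → Finset ℕ) : Geo where
  ln := Ld c
  q := zb c
  Sd := Sd
  g := gth c
  lO K := Ld c (om c K)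
  isT K := tsL (layL c K) ≠ .none
  LF1 K := lf1 c Sd (tsL (layL c K))
  LF2 K K' := lf2 c Sd (tsL (layL c K)) (tsL (layL c K'))
  K0 := K1
  A K := 1000 * CC c ^ (epo c K + 2)
  b K := 2 ^ 40 * CC c ^ 6 * 2 ^ kk (epo c K)
  d K := ll c (epo c K) / 8
  E K := 153 * CC c ^ (epo c K + 2)
  l1 K := ll c (epo c K + 1)

/-- the facts about the T-states and Omega which are used -/
structure TsHyp (c K1 : ℕ) : Prop where
  W : ∀ K, K1 ≤ K → ∀ e, tsL (layL c K) = .W e → 40 ≤ e ∧ e ≤ ep c K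
  H : ∀ K, K1 ≤ K → ∀ e, tsL (layL c K) = .H e → epo c K ≤ e ∧ e ≤ ep c K
  om : ∀ K K', K1 ≤ K' → K' ≤ K → K < K' + gth c K →
    (tsL (layL c K) ≠ .none ∨ tsL (layL c K') ≠ .none) → om c K = om c K'
  same : ∀ K K', K1 ≤ K' → K' ≤ K → K < K' + gth c K →
    tsL (layL c K) ≠ .none → tsL (layL c K') ≠ .none → tsL (layL c K) = tsL (layL c K')
  omle : ∀ K, K1 ≤ K → wb c K ≤ Pool.Agent.Helper29.E2.om c K ∧ Pool.Agent.Helper29.E2.om c K ≤ K

/-- the standing assumptions on the first scale -/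
structure BigK (c K1 : ℕ) : Prop where
  c20 : 20 ≤ c
  big : Big c K1
  e100 : 100 ≤ epo c K1

lemma BigK.epo {K1 K : ℕ} (h : BigK c K1) (hK : K1 ≤ K) : 100 ≤ epo c K :=
  h.e100.trans (Pool.Agent.Helper29.E2.epo_mono hK)

/-! ### numbers -/

lemma ll_mono_all (hc : 10 ≤ c) : Monotone (ll c) := by
  apply monotone_nat_of_le_succ
  intro e
  unfold ll
  apply Nat.pow_le_pow_right (by norm_num)
  have h1 := Pool.Agent.Helper86.E2.kk_succ_le e
  rcases Nat.lt_or_ge e 3 with h | h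
  · have : e - 3 = 0 := by omega
    rw [this, mul_zero]
    omega
  · have h2 : c * (e + 1 - 3) = c * (e - 3) + c := by
      have : e + 1 - 3 = e - 3 + 1 := by omega
      rw [this, mul_add, mul_one]
    omega

lemma ll_exp {e : ℕ} (hc : 20 ≤ c) (he : 20 ≤ e) :
    ll c e * 2 ^ (19 + kk e) * CC c ^ 4 = CC c ^ e := by
  have hk := kk_le (show 9 ≤ e by omega)
  unfold ll CC
  rw [← pow_mul, ← pow_mul, ← pow_add, ← pow_add]
  congr 1
  have h1 : c * (e - 3) = c * (e - 20) + 17 * c := by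
    have : e - 3 = e - 20 + 17 := by omega
    rw [this, mul_add]
    ring
  have h2 : c * e = c * (e - 20) + 20 * c := by
    have : e = e - 20 + 20 := by omega
    conv_lhs => rw [this, mul_add]
    ring
  have h3 : 20 * (e - 20) ≤ c * (e - 20) := Nat.mul_le_mul_right _ hc
  omega

lemma eight_dvd_ll {e : ℕ} (hc : 20 ≤ c) (he : 20 ≤ e) : 8 ∣ ll c e := by
  have hk := kk_le (show 9 ≤ e by omega)
  have h1 : c * (e - 3) = c * (e - 20) + 17 * c := by
    have : e - 3 = e - 20 + 17 := by omega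
    rw [this, mul_add]
    ring
  have h3 : 20 * (e - 20) ≤ c * (e - 20) := Nat.mul_le_mul_right _ hc
  have : (8 : ℕ) = 2 ^ 3 := by norm_num
  rw [this]
  unfold ll
  exact pow_dvd_pow 2 (by omega)

lemma ll_le_pow {e : ℕ} (hc : 20 ≤ c) (he : 20 ≤ e) : ll c e ≤ CC c ^ e := by
  rw [← ll_exp hc he]
  have h1 : 1 ≤ 2 ^ (19 + kk e) := Nat.one_le_two_pow
  have h2 : 1 ≤ CC c ^ 4 := Nat.one_le_pow _ _ (CC_pos c)
  calc ll c e = ll c e * 1 * 1 := by ring
    _ ≤ _ := Nat.mul_le_mul (Nat.mul_le_mul_left _ h1) h2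

/-- `d` is large -/
lemma d_big {e : ℕ} (hc : 20 ≤ c) (he : 100 ≤ e) :
    (c + 1) * (e + 100) ≤ ll c e / 8 := by
  have hk := kk_le (show 9 ≤ e by omega)
  have h1 : c * (e - 3) = c * (e - 20) + 17 * c := by
    have : e - 3 = e - 20 + 17 := by omega
    rw [this, mul_add]
    ring
  have h3 : 20 * (e - 20) ≤ c * (e - 20) := Nat.mul_le_mul_right _ hc
  rw [Nat.le_div_iff_mul_le (by norm_num)]
  unfold ll
  have h4 : c + (e + 10) ≤ c * (e - 3) - 19 - kk e - c := by omega
  calc (c + 1) * (e + 100) * 8 ≤ 2 ^ c * 2 ^ (e + 10) := by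
        have h5 : c + 1 ≤ 2 ^ c := Nat.lt_two_pow_self
        have h6 : (e + 100) * 8 ≤ 2 ^ (e + 10) := by
          have h7 : e + 1 ≤ 2 ^ e := Nat.lt_two_pow_self
          have h8 : (2:ℕ) ^ 10 = 1024 := by norm_num
          rw [pow_add, h8]
          omega
        calc (c + 1) * (e + 100) * 8 = (c + 1) * ((e + 100) * 8) := by ring
          _ ≤ _ := Nat.mul_le_mul h5 h6
    _ = 2 ^ (c + (e + 10)) := by rw [← pow_add]
    _ ≤ _ := Nat.pow_le_pow_right (by norm_num) h4

lemma one_le_X (c e : ℕ) : 1 ≤ CC c ^ e := Nat.one_le_pow _ _ (CC_pos c)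

lemma l1_small {e : ℕ} (hc : 20 ≤ c) (he : 100 ≤ e) : 20 * ll c (e + 1) + 400 ≤ CC c ^ (e + 2) := by
  have h1 := ll_le_pow (e := e + 1) hc (by omega)
  have h2 := CC_ge hc
  have h3 : CC c ^ (e + 2) = CC c ^ (e + 1) * CC c := pow_succ _ _
  rw [h3]
  have h4 := one_le_X c (e + 1)
  nlinarith

lemma numb_aux {e : ℕ} (hc : 20 ≤ c) (he : 100 ≤ e) :
    155 * CC c ^ (e + 2) ≤ 2 ^ 40 * CC c ^ 6 * 2 ^ kk e * (ll c e / 8) := by
  have h1 := ll_exp (c := c) (e := e) hc (by omega)
  obtain ⟨d, hd⟩ := eight_dvd_ll (c := c) (e := e) hc (by omega)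
  have h2 : ll c e / 8 = d := by omega
  rw [h2]
  rw [hd] at h1
  have h3 : CC c ^ (e + 2) = CC c ^ 2 * (8 * d * 2 ^ (19 + kk e) * CC c ^ 4) := by
    rw [h1, ← pow_add]; congr 1; ring
  rw [h3]
  have h4 : (2:ℕ) ^ (19 + kk e) = 2 ^ 19 * 2 ^ kk e := pow_add _ _ _
  rw [h4]
  calc 155 * (CC c ^ 2 * (8 * d * (2 ^ 19 * 2 ^ kk e) * CC c ^ 4))
      = (155 * 8 * 2 ^ 19) * (CC c ^ 6 * 2 ^ kk e * d) := by ring
    _ ≤ 2 ^ 40 * (CC c ^ 6 * 2 ^ kk e * d) := Nat.mul_le_mul_right _ (by norm_num)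
    _ = _ := by ring

lemma ep_le_epo' {K : ℕ} : ep c K ≤ epo c K + 1 := ep_le_epo c K

lemma numd_aux {e : ℕ} (hc : 20 ≤ c) (he : 100 ≤ e) :
    1000 * CC c ^ (e + 2) ≤ 2 ^ (ll c e / 8 - 20) := by
  have h1 := d_big (c := c) hc he
  have h2 : 10 + c * (e + 2) ≤ ll c e / 8 - 20 := by
    have : c * (e + 2) + 30 ≤ (c + 1) * (e + 100) := by nlinarith
    omega
  calc 1000 * CC c ^ (e + 2) ≤ 2 ^ 10 * CC c ^ (e + 2) := Nat.mul_le_mul_right _ (by norm_num)
    _ = 2 ^ (10 + c * (e + 2)) := by unfold CC; rw [← pow_mul, ← pow_add]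
    _ ≤ _ := Nat.pow_le_pow_right (by norm_num) h2

lemma b_le_aux {e : ℕ} (hc : 20 ≤ c) (he : 100 ≤ e) :
    2 ^ 40 * CC c ^ 6 * 2 ^ kk e ≤ 1000 * CC c ^ (e + 2) := by
  have hk := kk_le (show 9 ≤ e by omega)
  have h1 := CC_ge hc
  have h2 : 2 ^ 40 ≤ CC c ^ 2 := by
    calc 2 ^ 40 = (2 ^ 20) ^ 2 := by norm_num
      _ ≤ _ := Nat.pow_le_pow_left h1 2
  have h3 : 2 ^ kk e ≤ CC c ^ (e - 6) := by
    calc 2 ^ kk e ≤ 2 ^ (20 * (e - 6)) := Nat.pow_le_pow_right (by norm_num) (by omega)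
      _ = (2 ^ 20) ^ (e - 6) := by rw [pow_mul]
      _ ≤ _ := Nat.pow_le_pow_left h1 _
  calc 2 ^ 40 * CC c ^ 6 * 2 ^ kk e ≤ CC c ^ 2 * CC c ^ 6 * CC c ^ (e - 6) :=
        Nat.mul_le_mul (Nat.mul_le_mul_right _ h2) h3
    _ = CC c ^ (e + 2) := by rw [← pow_add, ← pow_add]; congr 1; omega
    _ ≤ _ := Nat.le_mul_of_pos_left _ (by norm_num)

/-! ### lists -/

section lists

variable {e : ℕ}

lemma locT_card (hc : 20 ≤ c) (hS : SdOK Sd) (he : 40 ≤ e) {q : Finset ℕ}
    (hq : q ∈ Fam2 c Sd e) : ((loc2 c Sd e).1 ∩ q).card ≤ BT (CC c) e :=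
  T_Fam2 (TK := fun _ => ∅) hc hS he hq

lemma locH_card (hc : 20 ≤ c) (hS : SdOK Sd) (he : 40 ≤ e) {q : Finset ℕ}
    (hq : q ∈ Fam1 c Sd e) : ((loc1 c Sd e).1 ∩ q).card ≤ B1 (hh c e) :=
  T_Fam1 (TK := fun _ => ∅) hc hS he hq

/-- number of pairs with a prescribed sum -/
lemma pairs_card {L B : ℕ} {T : Finset ℕ} (h : Mult L B T T) (ν : ℕ) :
    ((T ×ˢ T).filter (fun p => p.1 + p.2 ≡ ν [MOD 2 ^ L])).card ≤ B := by
  refine le_trans (card_le_card ?_) (h (ν % 2 ^ L))
  intro p hp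
  rw [mem_filter] at hp ⊢
  exact ⟨hp.1, hp.2⟩

lemma pairs_inj {L : ℕ} {T : Finset ℕ} (hT : ∀ t ∈ T, t < 2 ^ L) {ν : ℕ} {p p' : ℕ × ℕ}
    (hp : p ∈ (T ×ˢ T).filter (fun p => p.1 + p.2 ≡ ν [MOD 2 ^ L]))
    (hp' : p' ∈ (T ×ˢ T).filter (fun p => p.1 + p.2 ≡ ν [MOD 2 ^ L]))
    (h : p.1 = p'.1 ∨ p.2 = p'.2) : p = p' := by
  rw [mem_filter, mem_product] at hp hp'
  have h1 := hp.2.trans hp'.2.symm
  rcases h with h | h
  · rw [h] at h1
    have h2 := Nat.ModEq.add_left_cancel' _ h1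
    exact Prod.ext h (h2.eq_of_lt_of_lt (hT _ hp.1.2) (hT _ hp'.1.2))
  · rw [h] at h1
    have h2 := Nat.ModEq.add_right_cancel' _ h1
    exact Prod.ext (h2.eq_of_lt_of_lt (hT _ hp.1.1) (hT _ hp'.1.1)) h

lemma pairs_symm {L : ℕ} {T : Finset ℕ} {ν : ℕ} {p : ℕ × ℕ}
    (hp : p ∈ (T ×ˢ T).filter (fun p => p.1 + p.2 ≡ ν [MOD 2 ^ L])) :
    p.swap ∈ (T ×ˢ T).filter (fun p => p.1 + p.2 ≡ ν [MOD 2 ^ L]) := by
  rw [mem_filter, mem_product] at hp ⊢
  exact ⟨⟨hp.1.2, hp.1.1⟩, by rw [Prod.fst_swap, Prod.snd_swap, add_comm]; exact hp.2⟩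

end lists

/-! ### the grid -/

section grid

variable {K1 K : ℕ}

open Pool.Agent.Helper29.E2 (gridL sb_eq_gs Ld_pos)

/-- from a grid point to a later grid point -/
lemma iter_nx (hc : 10 ≤ c) (y : ℕ) (hy : sb c y = y) (n : ℕ) : ∀ x : ℕ, y - x ≤ n → x ≤ y →
    8 ≤ ep c x → sb c x = x → ∃ m, y = (fun s => s + Ld c s)^[m] x := by
  induction n with
  | zero =>
    intro x hn hxy _ _
    exact ⟨0, by simp only [Function.iterate_zero, id]; omega⟩
  | succ n ih =>
    intro x hn hxy h8 hx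
    rcases Nat.eq_or_lt_of_le hxy with rfl | hlt
    · exact ⟨0, rfl⟩
    have g := gridL c hc
    have h1 : x + Ld c x ≤ y := g.add_le_of_lt hc (by omega) h8 hx hy hlt
    have h2 : sb c (x + Ld c x) = x + Ld c x := g.gs_next hc h8 hx
    have hp := Ld_pos c x
    have h3 : ep c x ≤ ep c (x + Ld c x) := Pool.Agent.Helper29.E2.ep_mono (by omega)
    obtain ⟨m, hm⟩ := ih (x + Ld c x) (by omega) h1 (by omega) h2
    exact ⟨m + 1, by rw [Function.iterate_succ_apply]; exact hm⟩

lemma zb_mono' {t t' : ℕ} (hb : Big c t) (h : t ≤ t') : zb c t ≤ zb c t' := by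
  have hc := hb.hc
  have T := Pool.Agent.Helper29.E2.topOK hb
  have g := gridL c hc
  have h10 := hb.ht
  have p1 := Ld_pos c (wn c t)
  have p2 := Ld_pos c (zb c t)
  obtain ⟨a1, a2⟩ := T.wn1
  obtain ⟨b1, b2⟩ := T.zb1
  have hw := T.wbz
  have h1 : sb c t ≤ sb c t' := by
    have h2 := (T.ep t (by have := T.sbt.1; omega) le_rfl).1
    exact g.gs_mono hc (by omega) (by omega) h
  have h2 : wn c t ≤ wn c t' := by
    have h2 := (T.ep (sb c t - 1) (by omega) (by have := T.sbt.1; omega)).1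
    exact g.gs_mono hc (s := sb c t - 1) (s' := sb c t' - 1) (by omega) (by omega) (by omega)
  have h3 := (T.ep (wn c t - 1) (by omega) (by have := T.sbt.1; omega)).1
  exact g.gs_mono hc (s := wn c t - 1) (s' := wn c t' - 1) (by omega) (by omega) (by omega)

end grid

/-! ### the instance -/

section inst

variable {K1 : ℕ}

open Pool.Agent.Helper29.E2 (gridL Ld_pos epo_mono ep_mono topOK)

/-- the hypotheses on the small cells -/
def SdHyp (c K1 : ℕ) (Sd : ℕ → Finset ℕ) : Prop :=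
  SdOK Sd ∧ ∀ e, epo c K1 ≤ e → SdOk Sd (ll c e)

lemma pow_e_le {e E : ℕ} (h : e ≤ E + 1) : CC c ^ (e + 1) ≤ CC c ^ (E + 2) :=
  Nat.pow_le_pow_right (CC_pos c) (by omega)

lemma hh_le {K e : ℕ} (hb : BigK c K1) (hK : K1 ≤ K) (h1 : epo c K ≤ e) : hh c e ≤ CC c ^ e := by
  have h2 := (hb.big.mono hK).Hd_dvd h1
  exact Nat.le_of_dvd (by have := one_le_X c e; omega) h2

/-- sizes of the lists of one scale -/
lemma lf1_mem {K : ℕ} (hb : BigK c K1) (hT : TsHyp c K1) (hS : SdHyp c K1 Sd) (hK : K1 ≤ K)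
    {Q : Finset ℕ} (hQ : Q ∈ lf1 c Sd (tsL (layL c K))) :
    Q.card ≤ 1000 * CC c ^ (epo c K + 2) := by
  have hE := hb.epo hK
  have hep := ep_le_epo c K
  cases hts : tsL (layL c K) with
  | none => rw [hts] at hQ; simp [lf1] at hQ
  | W e =>
    obtain ⟨h1, h2⟩ := hT.W K hK e hts
    rw [hts] at hQ
    simp only [lf1, mem_image] at hQ
    obtain ⟨q, hq, rfl⟩ := hQ
    refine (locT_card hb.c20 hS.1 h1 hq).trans ?_
    unfold BT
    exact Nat.mul_le_mul (by norm_num) (pow_e_le (by omega))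
  | H e =>
    obtain ⟨h1, h2⟩ := hT.H K hK e hts
    rw [hts] at hQ
    simp only [lf1, mem_image] at hQ
    obtain ⟨q, hq, rfl⟩ := hQ
    refine (locH_card hb.c20 hS.1 (by omega) hq).trans ?_
    unfold B1
    exact Nat.mul_le_mul (by norm_num) ((hh_le hb hK h1).trans
      (Nat.pow_le_pow_right (CC_pos c) (by omega)))

lemma lf1_card {K : ℕ} (hb : BigK c K1) (hT : TsHyp c K1) (hK : K1 ≤ K) :
    (lf1 c Sd (tsL (layL c K))).card ≤ 2 ^ (153 * CC c ^ (epo c K + 2)) := by
  have hE := hb.epo hK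
  have hep := ep_le_epo c K
  have hX := one_le_X c (epo c K + 2)
  cases hts : tsL (layL c K) with
  | none => simp only [lf1, card_empty]; exact Nat.zero_le _
  | W e =>
    obtain ⟨h1, h2⟩ := hT.W K hK e hts
    simp only [lf1]
    refine card_image_le.trans ((card_Fam2 hb.c20 h1).trans ?_)
    refine Nat.pow_le_pow_right (by norm_num) ?_
    exact Nat.mul_le_mul (by norm_num) (pow_e_le (by omega))
  | H e =>
    obtain ⟨h1, h2⟩ := hT.H K hK e hts
    simp only [lf1]
    refine card_image_le.trans ((card_Fam1 e).trans ?_)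
    refine Nat.pow_le_pow_right (by norm_num) ?_
    have h3 := hh_le hb hK h1
    have h4 : CC c ^ e ≤ CC c ^ (epo c K + 2) := Nat.pow_le_pow_right (CC_pos c) (by omega)
    omega

/-- sizes of the lists of two scales -/
lemma lf2_mem {K K' : ℕ} (hb : BigK c K1) (hT : TsHyp c K1) (hS : SdHyp c K1 Sd) (hK : K1 ≤ K)
    {L : Finset (ℕ × ℕ)} (hL : L ∈ lf2 c Sd (tsL (layL c K)) (tsL (layL c K'))) :
    L.card ≤ 1000 * CC c ^ (epo c K + 2) ∧
      (∀ p ∈ L, ∀ p' ∈ L, (p.1 = p'.1 ∨ p.2 = p'.2) → p = p') ∧ ∀ p ∈ L, p.swap ∈ L := by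
  have hE := hb.epo hK
  have hep := ep_le_epo c K
  cases hts : tsL (layL c K) with
  | none => rw [hts] at hL; simp [lf2] at hL
  | W e =>
    obtain ⟨h1, h2⟩ := hT.W K hK e hts
    cases hts' : tsL (layL c K') with
    | none => rw [hts, hts'] at hL; simp [lf2] at hL
    | H e' => rw [hts, hts'] at hL; simp [lf2] at hL
    | W e' =>
      rw [hts, hts'] at hL
      simp only [lf2, mem_image] at hL
      obtain ⟨ν, -, rfl⟩ := hL
      have h := (loc2_ok hb.c20 h1 hS.1).toLocGood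
      refine ⟨?_, fun p hp p' hp' => pairs_inj h.T_lt hp hp', fun p hp => pairs_symm hp⟩
      refine (pairs_card h.mTT ν).trans ?_
      unfold BT
      exact Nat.mul_le_mul (by norm_num) (pow_e_le (by omega))
  | H e =>
    obtain ⟨h1, h2⟩ := hT.H K hK e hts
    cases hts' : tsL (layL c K') with
    | none => rw [hts, hts'] at hL; simp [lf2] at hL
    | W e' => rw [hts, hts'] at hL; simp [lf2] at hL
    | H e' =>
      rw [hts, hts'] at hL
      simp only [lf2, mem_image] at hL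
      obtain ⟨ν, -, rfl⟩ := hL
      have h := loc1_okH hb.c20 (show 40 ≤ e by omega) hS.1
      refine ⟨?_, fun p hp p' hp' => pairs_inj h.T_lt hp hp', fun p hp => pairs_symm hp⟩
      refine (pairs_card h.TT ν).trans ?_
      unfold B1
      exact Nat.mul_le_mul (by norm_num) ((hh_le hb hK h1).trans
        (Nat.pow_le_pow_right (CC_pos c) (by omega)))

lemma lf2_card {K K' : ℕ} (hb : BigK c K1) (hT : TsHyp c K1) (hK : K1 ≤ K) :
    (lf2 c Sd (tsL (layL c K)) (tsL (layL c K'))).card ≤ 2 ^ (153 * CC c ^ (epo c K + 2)) := by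
  have hE := hb.epo hK
  have hep := ep_le_epo c K
  cases hts : tsL (layL c K) with
  | none => simp only [lf2, card_empty]; exact Nat.zero_le _
  | W e =>
    obtain ⟨h1, h2⟩ := hT.W K hK e hts
    cases hts' : tsL (layL c K') with
    | none => simp only [lf2, card_empty]; exact Nat.zero_le _
    | H e' => simp only [lf2, card_empty]; exact Nat.zero_le _
    | W e' =>
      simp only [lf2]
      refine card_image_le.trans ?_
      rw [card_range]
      refine Nat.pow_le_pow_right (by norm_num) ?_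
      have h4 : CC c ^ e ≤ CC c ^ (epo c K + 2) := Nat.pow_le_pow_right (CC_pos c) (by omega)
      omega
  | H e =>
    obtain ⟨h1, h2⟩ := hT.H K hK e hts
    cases hts' : tsL (layL c K') with
    | none => simp only [lf2, card_empty]; exact Nat.zero_le _
    | W e' => simp only [lf2, card_empty]; exact Nat.zero_le _
    | H e' =>
      simp only [lf2]
      refine card_image_le.trans ?_
      rw [card_range]
      refine Nat.pow_le_pow_right (by norm_num) ?_
      have h3 := hh_le hb hK h1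
      have h4 : CC c ^ e ≤ CC c ^ (epo c K + 2) := Nat.pow_le_pow_right (CC_pos c) (by omega)
      omega

lemma X_mono {K K' : ℕ} (h : K' ≤ K) : CC c ^ (epo c K' + 2) ≤ CC c ^ (epo c K + 2) :=
  Nat.pow_le_pow_right (CC_pos c) (by have := epo_mono (c := c) h; omega)

/-- **the instance satisfies the hypotheses** -/
theorem geoOk (hb : BigK c K1) (hT : TsHyp c K1) (hS : SdHyp c K1 Sd) : (geo c K1 Sd).Ok := by
  have hc := hb.c20
  have hc10 : 10 ≤ c := by omega
  have g := gridL c hc10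
  have hbig : ∀ K, K1 ≤ K → Big c K := fun K hK => hb.big.mono hK
  have hnx : ∀ s, (geo c K1 Sd).nx s = s + Ld c s := fun _ => rfl
  have hw : ∀ K, K1 ≤ K → (geo c K1 Sd).w K = wn c K := fun K hK => (topOK (hbig K hK)).zb1.1
  have hwx : ∀ K, K1 ≤ K → (geo c K1 Sd).nx ((geo c K1 Sd).w K) = sb c K := by
    intro K hK
    rw [hw K hK, hnx]
    exact (topOK (hbig K hK)).wn1.1
  have hle : ∀ K, K1 ≤ K → ∀ s, zb c K ≤ s → epo c K ≤ ep c s := by
    intro K hK s hs
    have T := topOK (hbig K hK)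
    have h1 := (T.ep (zb c K) T.wbz (by
      have := (hbig K hK).zb_le; omega)).1
    exact h1.trans (ep_mono hs)
  have h100 : ∀ K, K1 ≤ K → 100 ≤ epo c K := fun K hK => hb.epo hK
  have hlist1 : ∀ K K', K1 ≤ K' → K' ≤ K → ∀ L ∈ (geo c K1 Sd).LF K K',
      L.card ≤ 1000 * CC c ^ (epo c K + 2) := by
    intro K K' h1 h2 L hL
    have hK : K1 ≤ K := h1.trans h2
    have hX := one_le_X c (epo c K + 2)
    unfold Geo.LF at hL
    split_ifs at hL with q1 q2 q3
    · exact (lf2_mem hb hT hS hK hL).1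
    · obtain ⟨Q, hQ, rfl⟩ := mem_image.mp hL
      rw [card_product, card_singleton, mul_one]
      exact lf1_mem hb hT hS hK hQ
    · obtain ⟨Q, hQ, rfl⟩ := mem_image.mp hL
      rw [card_product, card_singleton, one_mul]
      exact (lf1_mem hb hT hS h1 hQ).trans (Nat.mul_le_mul_left _ (X_mono h2))
    · rw [mem_singleton] at hL
      rw [hL, card_singleton]
      omega
  have hlist2 : ∀ K K', K1 ≤ K' → K' ≤ K → ((geo c K1 Sd).LF K K').card ≤
      2 ^ (153 * CC c ^ (epo c K + 2)) := by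
    intro K K' h1 h2
    have hK : K1 ≤ K := h1.trans h2
    have hX := one_le_X c (epo c K + 2)
    unfold Geo.LF
    split_ifs with q1 q2 q3
    · exact lf2_card hb hT hK
    · exact card_image_le.trans (lf1_card hb hT hK)
    · refine card_image_le.trans ((lf1_card hb hT h1).trans ?_)
      exact Nat.pow_le_pow_right (by norm_num) (Nat.mul_le_mul_left _ (X_mono h2))
    · rw [card_singleton]
      exact Nat.one_le_two_pow
  exact
    { lo := fun K hK => by
        rw [hwx K hK]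
        exact (topOK (hbig K hK)).sbt.1
      hi := fun K hK => by
        rw [hwx K hK, hnx]
        have T := topOK (hbig K hK)
        obtain ⟨-, h2, h3⟩ := T.sbt
        have h4 : Ld c (sb c K) = Ld c K := by
          have h5 := (T.ep K (by have := (hbig K hK).zb_le; have := T.wbz; omega) le_rfl).1
          have h6 := h100 K hK
          show ll c (ep c (sb c K)) = ll c (ep c K)
          rw [show ep c (sb c K) = ep c K from g.ep_gs hc10 (by omega) (by omega)]
        rw [h4]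
        exact h2
      cells := fun K K' hn => by
        obtain ⟨h1, h2, h3⟩ := hn
        have hK' : K1 ≤ K' := h1
        have T := topOK (hbig K (hK'.trans h2))
        have T' := topOK (hbig K' hK')
        have h4 := zb_mono' (hbig K' hK') h2
        have h5 := hle K' hK' (zb c K') le_rfl
        have h6 := h100 K' hK'
        exact iter_nx hc10 (zb c K) T.zb1.2 _ (zb c K') le_rfl h4 (by omega) T'.zb1.2
      sd := fun K s hK hs => hS.2 _ ((epo_mono hK).trans (hle K hK s hs))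
      sdO := fun K hK => by
        have T := topOK (hbig K hK)
        obtain ⟨h1, h2⟩ := hT.omle K hK
        exact hS.2 _ ((epo_mono hK).trans (T.ep _ h1 h2).1)
      lO := fun K K' hn h => by
        show Ld c (om c K) = Ld c (om c K')
        rw [hT.om K K' hn.1 hn.2.1 hn.2.2 h]
      ln_low := fun K s hK hs => by
        have h1 := ll_mono_all hc10 (hle K hK s hs)
        have h2 := Nat.mul_div_le (ll c (epo c K)) 8
        exact h2.trans h1
      ln_high := fun K s hK hs => ll_mono_all hc10 ((ep_mono hs).trans (ep_le_epo c K))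
      lO_low := fun K hK => by
        have T := topOK (hbig K hK)
        obtain ⟨h1, h2⟩ := hT.omle K hK
        have h3 := ll_mono_all hc10 (T.ep _ h1 h2).1
        have h4 := Nat.mul_div_le (ll c (epo c K)) 8
        exact h4.trans h3
      lO_high := fun K hK => by
        obtain ⟨h1, h2⟩ := hT.omle K hK
        exact ll_mono_all hc10 ((ep_mono h2).trans (ep_le_epo c K))
      g_pos := fun K _ => by
        show 0 < gth c K
        unfold gth Gq
        positivity
      g_le := fun K hK => by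
        show gth c K ≤ 2 ^ ll c (epo c K + 1)
        have h1 := d_big hc (h100 K hK)
        have h2 := ll_mono_all hc10 (Nat.le_succ (epo c K))
        have h3 : gth c K ≤ 2 ^ (c * (epo c K + 2)) := by
          unfold gth Gq
          refine Nat.pow_le_pow_right (by norm_num) ?_
          have : c * (epo c K - 1 - 1) ≤ c * (epo c K + 2) := Nat.mul_le_mul_left _ (by omega)
          omega
        refine h3.trans (Nat.pow_le_pow_right (by norm_num) ?_)
        have h4 : c * (epo c K + 2) ≤ (c + 1) * (epo c K + 100) := by nlinarith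
        have h5 := Nat.div_le_self (ll c (epo c K)) 8
        have h6 : ll c (epo c K).succ = ll c (epo c K + 1) := rfl
        omega
      card_LF := fun K K' hn => hlist2 K K' hn.1 hn.2.1
      card_LF1 := fun K hK _ => lf1_card hb hT hK
      card_mem := fun K K' hn => hlist1 K K' hn.1 hn.2.1
      card_mem1 := fun K hK _ Q hQ => lf1_mem hb hT hS hK hQ
      inj := fun K K' hn _ _ L hL => (lf2_mem hb hT hS (hn.1.trans hn.2.1) hL).2.1
      symm := fun K hK _ L hL => (lf2_mem hb hT hS hK hL).2.2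
      A_mono := fun K K' h => Nat.mul_le_mul_left _ (X_mono h)
      b_mono := fun K K' h => Nat.mul_le_mul_left _
        (Nat.pow_le_pow_right (by norm_num) (Pool.Agent.Helper86.E2.kk_mono (epo_mono h)))
      d_mono := fun K K' h => Nat.div_le_div_right (ll_mono_all hc10 (epo_mono h))
      numA := fun K hK => by
        show 153 * CC c ^ (epo c K + 2) + 20 * ll c (epo c K + 1) + 400 ≤
          1000 * CC c ^ (epo c K + 2)
        have := l1_small hc (h100 K hK)
        omega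
      numb := fun K hK => by
        show 153 * CC c ^ (epo c K + 2) + 20 * ll c (epo c K + 1) + 400 ≤
          2 ^ 40 * CC c ^ 6 * 2 ^ kk (epo c K) * (ll c (epo c K) / 8)
        have := l1_small hc (h100 K hK)
        have := numb_aux hc (h100 K hK)
        omega
      numd := fun K hK => numd_aux hc (h100 K hK)
      d_pos := fun K hK => by
        show 100 ≤ ll c (epo c K) / 8
        have h1 := d_big hc (h100 K hK)
        nlinarith
      b_pos := fun K hK => by
        show 100 ≤ 2 ^ 40 * CC c ^ 6 * 2 ^ kk (epo c K)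
        have h1 := one_le_X c 6
        have h2 : 1 ≤ 2 ^ kk (epo c K) := Nat.one_le_two_pow
        calc 100 ≤ 2 ^ 40 * 1 * 1 := by norm_num
          _ ≤ _ := Nat.mul_le_mul (Nat.mul_le_mul_left _ h1) h2
      b_le := fun K hK => b_le_aux hc (h100 K hK) }

end inst

end Pool.Agent.E2S
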