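import Mathlib
import Pool.Agent.E2S.Ct
import Pool.Agent.E2S.Final
import Pool.Agent.Helper3.E2.LZone
import Pool.Agent.Helper86.E2.FarAll

/-!
# E-T (MP_12a1af_nt), phase 2: from the parts to `LHyp2`
-/

set_option autoImplicit false

open Finset

namespace Pool.Agent.E2S

open Pool.Agent.ETS (Hash)
open Pool.Agent.E2 (Rg Chain Reg2 Codes2 layL lay HasDesc2 IsDesc2 isPT2 OccT zoneReg Ok01 OKh Vs val
  LHyp2 BlkZ rg0 mul0 cov_map far_of_farB)
open Pool.Agent.Helper29.ETK (CC lg kk Gq)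
open Pool.Agent.Helper29.E2 (ep epo gth Ld Hd Wd zb wn sb wb om ll hh Big TopOK KidOK)
open Pool.Agent.Helper86.E2 (TopHyp FarPCases far_all)

/-- **everything which is needed for one value of the constants** -/
structure AsmHyp (a μ b c K1 : ℕ) (D : Codes2) (nf : ℕ → Finset ℕ) (h0 : ℕ → Hash) : Prop where
  c20 : 20 ≤ c
  hcd : CodeFacts c D.toCodes
  hH : ∀ e, D.H e = hh c e
  sd : ∀ e, epo c K1 ≤ e → (D.Sd (ll c e)).card ≤ 2 ^ (ll c e / 2)
  big : ∀ K, K1 ≤ K → BigOne c K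
  K100 : CC c ^ 100 ≤ K1
  one : ∀ K, K1 ≤ K → OneK c 40 K
  kin : ∀ K K', K1 ≤ K' → K' + gth c K ≤ K → FarKin c K K'
  x4 : ∀ K K', K1 ≤ K' → K' + gth c K ≤ K → FarCases4 c D.toCodes K K'
  top : ∀ K K', K1 ≤ K' → K' + gth c K ≤ K → TopHyp c D K K'
  px : ∀ K K', K1 ≤ K' → K' + gth c K ≤ K → FarPCases c D K K'
  chain : ∀ K, K1 ≤ K → Chain 0 (lay D c K) K
  card : ∀ K, K1 ≤ K → ∀ r ∈ lay D c K, r.V.card ^ 2 ≤ 2 ^ r.len
  inj : ∀ K, K1 ≤ K → ∀ r ∈ lay D c K, ∀ v ∈ r.V, ∀ v' ∈ r.V,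
    r.c v ≡ r.c v' [MOD 2 ^ r.len] → v = v'
  ok01 : ∀ K, K1 ≤ K → ∀ j q0 q1, (layL c K)[j]? = some q0 → (layL c K)[j+1]? = some q1 →
    Ok01 D q0 q1
  len2 : ∀ K, K1 ≤ K → 2 ≤ (layL c K).length
  nf0 : ∀ K, K1 ≤ K → 0 ∉ nf K
  nf1 : ∀ K, K1 ≤ K → (layL c K).length - 1 ∈ nf K
  nfl : ∀ K, K1 ≤ K → ∑ j ∈ nf K, ((lay D c K)[j]?).elim 0 Rg.len ≤ 5 * ll c (epo c K + 1)
  len : ∀ K, K1 ≤ K → (layL c K).length ≤ lenF a b c K
  cnt : ∀ K, K1 ≤ K → cntF b K ≤ ((lay D c K).map (fun r => r.V.card)).prod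
  near : ∀ K K', K1 ≤ K' → K' ≤ K → K < K' + gth c K → ∀ h h' : Hash,
    OKh (nf K) (h0 K) h → OKh (nf K') (h0 K') h' → ∀ ν,
    ((Vs (lay D c K) ×ˢ Vs (lay D c K')).filter (fun q =>
      val (lay D c K) h q.1 + val (lay D c K') h' q.2 = ν)).card ≤ nearF a μ b c K

/-- bound of the total length of the regions with prescribed hash values -/
def nlF (c K : ℕ) : ℕ := 5 * (gth c K / (512 * CC c))

lemma gth_pos (c K : ℕ) : 1 ≤ gth c K := by
  unfold gth Gq
  exact Nat.one_le_two_pow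

lemma gth_mono {c K K' : ℕ} (hc : 10 ≤ c) (h : K' ≤ K) : gth c K' ≤ gth c K := by
  unfold gth
  exact Pool.Agent.Helper86.E2.Gq_mono' hc (by
    have := Pool.Agent.Helper29.E2.epo_mono (c := c) h
    omega)

lemma ll_le_gth {c K e : ℕ} (hb : BigOne c K) (h1 : epo c K ≤ e) (h2 : e ≤ epo c K + 1) :
    ll c e ≤ gth c K / (512 * CC c) := by
  have h3 := Pool.Agent.Helper29.E2.ll_le_Gq hb.big.hc (E := epo c K) (e := e)
    (by have := hb.big.ht; omega) h1 h2
  rw [Nat.le_div_iff_mul_le (by have := CC_pos c; omega)]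
  calc ll c e * (512 * CC c) = 512 * (CC c * ll c e) := by ring
    _ ≤ _ := h3

/-- the numbers of the far pairs -/
lemma num_far {g C m N : ℕ} (hC : 0 < C) (h : m + N ≤ 11 * (g / (512 * C))) :
    m + N + g / (16 * C) ≤ g / (8 * C) := by
  have h1 : g / (512 * C) = g / (16 * C) / 32 := by
    rw [Nat.div_div_eq_div_mul]
    congr 1
    ring
  have h2 : 2 * (g / (16 * C)) ≤ g / (8 * C) := by
    rw [Nat.le_div_iff_mul_le (by omega)]
    calc 2 * (g / (16 * C)) * (8 * C) = g / (16 * C) * (16 * C) := by ring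
      _ ≤ g := Nat.div_mul_le_self _ _
  rw [h1] at h
  omega

section

variable {a μ b c K1 : ℕ} {D : Codes2} {nf : ℕ → Finset ℕ} {h0 : ℕ → Hash}

/-- index of the last region of far pairs -/
noncomputable def ctF (D : Codes2) (c K : ℕ) : ℕ := ctN (gth c K) K (lay D c K)

lemma AsmHyp.length (_H : AsmHyp a μ b c K1 D nf h0) (K : ℕ) :
    (lay D c K).length = (layL c K).length := by
  unfold lay
  rw [List.length_map]

lemma last_layL (c K : ℕ) : (layL c K)[(layL c K).length - 1]? = some (zoneReg c K) := by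
  unfold layL
  rw [List.length_append, List.length_singleton, Nat.add_sub_cancel,
    List.getElem?_append_right le_rfl, Nat.sub_self]
  rfl

lemma AsmHyp.ctF_lt (H : AsmHyp a μ b c K1 D nf h0) {K : ℕ} (hK : K1 ≤ K) :
    ctF D c K < (layL c K).length := by
  have hb := H.big K hK
  have hl := H.len2 K hK
  by_contra hn
  have h1 := getElem?_lay (D := D) (last_layL c K)
  have h2 := (ctN_iff (g := gth c K) (K := K) (H.chain K hK) h1).mpr (by
    unfold ctF at hn; omega)
  have h3 : ((zoneReg c K).rg D).bot = zb c K := rfl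
  rw [h3] at h2
  have h4 := Pool.Agent.Helper29.E2.zone_facts hb.big.hc (t := K) (by have := hb.big.ht; omega)
  obtain ⟨-, -, -, -, -, h5, -⟩ := h4
  have hzK : zb c K ≤ K := by have := hb.big.zb_le; omega
  have h6 := Ld_small hb (s := K) (Pool.Agent.Helper86.E2.epo_le_ep hb.big.hc
    (by have := hb.big.ht; omega) (H.one K hK).K.wbt) le_rfl
  omega

lemma AsmHyp.caseHyp (H : AsmHyp a μ b c K1 D nf h0) {K K' : ℕ} (h1 : K1 ≤ K')
    (h2 : K' + gth c K ≤ K) : CaseHyp c D.toCodes K K' where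
  c20 := H.c20
  K1 := H.K100.trans h1
  g := h2
  O := H.one K (by omega)
  O' := H.one K' h1
  F := H.kin K K' h1 h2
  D := H.hcd

lemma desc_of {K : ℕ} (hb : BigOne c K) (hok : KidOK c K) {j : ℕ} {q0 q1 : Reg2}
    (hj : j + 1 < (layL c K).length)
    (h0 : (Reg2.old (.R 0 0) :: layL c K)[j]? = some q0) (h1 : (layL c K)[j]? = some q1) :
    HasDesc2 c K q0 q1 := by
  rcases Pool.Agent.E2.layL_cases2 hok hb.big.hc hb.E0 h0 h1 with h | ⟨-, h, -⟩
  · exact h
  · omega

/-- number of the values of a region below -/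
lemma AsmHyp.mul0_le (H : AsmHyp a μ b c K1 D nf h0) {K : ℕ} (hK : K1 ≤ K) {j : ℕ} {q0 q1 : Reg2}
    (hj : j + 1 < (layL c K).length)
    (h0' : (Reg2.old (.R 0 0) :: layL c K)[j]? = some q0) (h1 : (layL c K)[j]? = some q1) :
    ∃ l, mul0 D q0 ≤ 2 ^ (l / 2) ∧ l ≤ gth c K / (512 * CC c) := by
  have hb := H.big K hK
  cases j with
  | zero =>
    simp only [List.getElem?_cons_zero, Option.some.injEq] at h0'
    subst h0'
    exact ⟨0, by simp [mul0], Nat.zero_le _⟩
  | succ i =>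
    rw [List.getElem?_cons_succ] at h0'
    obtain ⟨q, hq⟩ : ∃ q, (Reg2.old (.R 0 0) :: layL c K)[i]? = some q := by
      have : i < (Reg2.old (.R 0 0) :: layL c K).length := by
        rw [List.length_cons]; omega
      exact ⟨_, List.getElem?_eq_getElem this⟩
    obtain ⟨d, hd⟩ := desc_of hb (H.one K hK).K (by omega) hq h0'
    have htriv : (∀ l s, q0 ≠ .cell l s) →
        ∃ l, mul0 D q0 ≤ 2 ^ (l / 2) ∧ l ≤ gth c K / (512 * CC c) := by
      intro hn
      refine ⟨0, ?_, Nat.zero_le _⟩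
      cases q0 <;> simp [mul0]
      exact absurd rfl (hn _ _)
    cases d with
    | old d =>
      obtain ⟨r0, r1, rfl, rfl, -⟩ := hd
      exact htriv (fun l s h => by cases h)
    | top d =>
      obtain ⟨rfl, -, hd⟩ := hd
      by_cases hcell : ∃ p, d = .cell p
      · obtain ⟨p, rfl⟩ := hcell
        have hzK : zb c K ≤ K := by have := hb.big.zb_le; omega
        have e1 : epo c K ≤ ep c p := Pool.Agent.Helper86.E2.epo_le_ep hb.big.hc
          (by have := hb.big.ht; omega) hd.2.1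
        have e2 : p ≤ K := by
          have h3 : p + Ld c p ≤ zb c K := hd.2.2
          omega
        have e3 : ep c p ≤ epo c K + 1 :=
          (Pool.Agent.Helper29.E2.ep_mono e2).trans (ep_le_epo c K)
        exact ⟨ll c (ep c p), H.sd _ ((Pool.Agent.Helper29.E2.epo_mono hK).trans e1),
          ll_le_gth hb e1 e3⟩
      · refine htriv (fun l s h => hcell ?_)
        cases d <;> simp [Pool.Agent.E2.Top.reg] at h
        exact ⟨_, rfl⟩

/-- **`LHyp2` from the parts** -/
theorem AsmHyp.lhyp2 (H : AsmHyp a μ b c K1 D nf h0) :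
    LHyp2 (lay D c) nf h0 (nlF c) (ctF D c) K1 (gth c) (mmF a b c) (epsF c) (nearF a μ b c)
      (cntF b) where
  chain := H.chain
  len2 := fun K hK => by rw [H.length]; exact H.len2 K hK
  card := H.card
  inj := H.inj
  nf0 := H.nf0
  nfl := fun K hK => (H.nfl K hK).trans
    (Nat.mul_le_mul_left _ (ll_le_gth (H.big K hK) (Nat.le_succ _) le_rfl))
  ct1 := fun K hK => by rw [H.length]; exact H.ctF_lt hK
  ctb := fun K hK r hr => by
    by_contra hn
    have := (ctN_iff (g := gth c K) (K := K) (H.chain K hK) hr).mp (by omega)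
    exact lt_irrefl _ this
  gpos := gth_pos c
  eps0 := fun K => by unfold epsF; positivity
  mm := fun K K' h1 h2 => by
    rw [H.length]
    have h3 := H.len K' h1
    have h4 := lenF_mono (a := a) (c := c) (le_refl b) h2
    unfold mmF
    omega
  cnt := H.cnt
  far := by
    intro K K' h1 h2 j j' r0 r1 r0' r1' hj hjn hjn' e0 e1 e0' e1'
    have hK : K1 ≤ K := by omega
    have hb := H.big K hK
    have hb' := H.big K' h1
    have hcov := cov_map (D := D) (H.ok01 K hK) e0 e1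
    have hcov' := cov_map (D := D) (H.ok01 K' h1) e0' e1'
    obtain ⟨q0, q1, f0, f1, f2, f3⟩ := hcov
    obtain ⟨q0', q1', f0', f1', f2', f3'⟩ := hcov'
    have hlt : ∀ {K : ℕ} {j : ℕ} {q : Reg2}, K1 ≤ K → j ∉ nf K → (layL c K)[j]? = some q →
        j + 1 < (layL c K).length := by
      intro K j q hK hj hq
      have h3 : j < (layL c K).length := by
        by_contra hn
        rw [List.getElem?_eq_none (by omega)] at hq
        exact absurd hq (by simp)
      have h4 := H.nf1 K hK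
      rcases Nat.lt_or_ge (j + 1) (layL c K).length with h5 | h5
      · exact h5
      · have : j = (layL c K).length - 1 := by omega
        rw [this] at hj
        exact absurd h4 hj
    have g1 := hlt hK hjn f1
    have g1' := hlt h1 hjn' f1'
    have hkin := H.kin K K' h1 h2
    have hct := hct_of hb H.hcd H.hH (H.one K hK).K (fun d hd => hkin.F8 d hd) (H.chain K hK) hj
      g1 f0 f1
    have hF := far_all (H.caseHyp h1 h2) (H.top K K' h1 h2) (H.x4 K K' h1 h2) (H.px K K' h1 h2)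
      hct (desc_of hb (H.one K hK).K g1 f0 f1) (desc_of hb' (H.one K' h1).K g1' f0' f1')
    obtain ⟨l, m1, m2⟩ := H.mul0_le hK g1 f0 f1
    obtain ⟨l', m1', m2'⟩ := H.mul0_le h1 g1' f0' f1'
    have hgm : gth c K' / (512 * CC c) ≤ gth c K / (512 * CC c) :=
      Nat.div_le_div_right (gth_mono hb.big.hc (by omega))
    refine far_of_farB (m := gth c K / (512 * CC c)) (N := nlF c K + nlF c K')
      (e := gth c K / (16 * CC c)) f2 f2' f3 f3' ?_ hF ?_ le_rfl
    · calc mul0 D q0 * mul0 D q0' ≤ 2 ^ (l / 2) * 2 ^ (l' / 2) := Nat.mul_le_mul m1 m1'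
        _ = 2 ^ (l / 2 + l' / 2) := by rw [pow_add]
        _ ≤ _ := Nat.pow_le_pow_right (by norm_num) (by omega)
    · apply num_far (CC_pos c)
      unfold nlF
      omega
  near := H.near

/-- **one value of the constants** -/
theorem AsmHyp.oneC (H : AsmHyp a μ b c K1 D nf h0) : OneC a μ b c K1 :=
  ⟨lay D c, nf, h0, nlF c, ctF D c, H.lhyp2⟩

end

end Pool.Agent.E2S
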