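import Mathlib
import Pool.Agent.E2S.FarMk
import Pool.Agent.Helper83.E2.Mk2

/-!
# E-T (MP_12a1af_nt), phase 2: the codes `mk2` satisfy `CodeFacts`
-/

open Finset

namespace Pool.Agent.E2S

open Pool.Agent.ETS
open Pool.Agent.Helper29.ETK (CC)
open Pool.Agent.Helper29.E2 (ep Wd)
open Pool.Agent.Helper83.ET Pool.Agent.Helper83.E2

/-- **the codes of phase 2, merged part** -/
theorem codeFacts_mk2 {c : ℕ} {Sd TK : ℕ → Finset ℕ} (hc : 20 ≤ c) (hS : SdOK Sd) :
    CodeFacts c (mk2 c Sd TK).toCodes where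
  W := fun _ => rfl
  X := fun _ _ => rfl
  P := fun _ _ _ => rfl
  T := by
    intro e he
    have h := (mk2_loc2 (TK := TK) hc hS he).toLocGood
    show ((mk2 c Sd TK).T e).card ^ 2 ≤ 2 ^ (CC c ^ e)
    rw [h.T_card, ← pow_mul]
    exact Nat.pow_le_pow_right (by norm_num) (by omega)
  R := by
    intro e he
    have h := (mk2_loc2 (TK := TK) hc hS he).toLocGood
    exact ⟨_, mkT_RHyp (Pool.Agent.E2S.CC_ge hc) (two_dvd_CC hc) (by omega) h⟩
  PT := by
    intro a b h1 h2 h3 h4 h5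
    have h := (mk2_loc2 (TK := TK) hc hS h1).toLocGood
    exact mkT_PTok' hc (by omega) h3 h4 h5 h.nearT

end Pool.Agent.E2S
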