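import Mathlib
import Pool.Agent.Helper3.E2.Low
import Pool.Agent.Helper3.E2.X2
import Pool.Agent.Helper5.E2P.CutMk
import Pool.Agent.E2S.MkFacts

/-!
# E-T (MP_12a1af_nt), phase 2: the four cases of the far pairs for the codes of the project
-/

namespace Pool.Agent.E2S

open Pool.Agent.Helper83.ET Pool.Agent.Helper83.E2

/-- **The four cases for the codes of the project.** -/
theorem farCases4_mk2 {c : ℕ} {Sd TK : ℕ → Finset ℕ} (hc : 20 ≤ c) (hS : SdOK Sd) {K K' : ℕ}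
    (hyp : CaseHyp c (mk2 c Sd TK).toCodes K K') : FarCases4 c (mk2 c Sd TK).toCodes K K' where
  X1 := Cr.far_X1 hyp (Cr.crossC_mk2 hc hS)
  X2 := Cr.far_X2 hyp (Cr.crossC_mk2 hc hS)
  LOW := LOW2 hyp
  CUTP := Pool.Agent.Helper5.E2P.CUTP_mk hyp

end Pool.Agent.E2S
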