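import Mathlib
import Pool.Agent.E2S.Inst

/-!
# E-T (MP_12a1af_nt), phase 2: the final theorem, exponent `1/2`
-/

set_option autoImplicit false

namespace Pool.Agent.E2S

open Pool.Agent.Helper29.ETK (CC)

/-- **the layouts and the codes** -/
theorem layPart : LayPart 25 132 := by
  refine ⟨20, fun c hc => ?_⟩
  have hbK := bigK_first hc
  obtain ⟨Δ, hΔ⟩ := Pool.Agent.Helper70.E2.exists_dt hbK (Pool.Agent.Helper29.E2.tsHyp hbK)
    (sdHyp hc)
  exact ⟨bfirst c, Kfirst c, pow_first (by have := le_Nfirst c; omega), (asmHyp hc hΔ).oneC⟩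

/-- **The final statement, exponent `1/2`.** -/
theorem finalStmt : FinalStmt :=
  final_of (Pool.Agent.Helper82.E2.numPart 25 132) layPart Pool.Agent.Helper32.E2T.thickPart

end Pool.Agent.E2S
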